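import Pool.Agent.H916.Tow

/-!
# General type and pseudo-geometric hyperbolicity for varieties which are fibred by curves

Let `k` be an algebraically closed field of characteristic zero and `X` a projective variety over
`k`, of arbitrary singularities, with the function field `K` and the generic point `x` (homogeneous
coordinates in `K`; `coords k x = ⊤` says that their ratios generate `K`). Finitely many dominant
rational maps `X ⇢ Y l` to projective varieties are given by the points `y l` with coordinates in
`K`; `Y l` is the closure of `y l`, with the function field `coords k (y l)`, and the compositum
`⨆ l, coords k (y l)` is the function field of the image `Z` of `X` in the product of the `Y l`. It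
is assumed that `dim X ≤ dim Z + 1`. (For one map this says that `X ⇢ Y` has relative dimension at
most one.)

**Theorem.** Suppose that all `Y l` are pseudo-geometrically hyperbolic. If `X` is of general type
then `X` is pseudo-geometrically hyperbolic, as conjectured by Lang. In fact `X` is
pseudo-geometrically hyperbolic if and only if `dim X = dim Z` or the geometric generic fibre of
`X ⇢ Z` is a curve of genus at least two (`HypFibres`). The same is true for the boundedness, outside
of a proper closed subset, of the degrees of the morphisms from each curve (`PseudoBounded`), and for
a bound which is linear in the genus (`CurveBound`). Therefore all varieties which are obtained by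
iterated fibrations by curves of genus at least two (`Iterated`), among them all varieties of general
type with a dominant rational map of relative dimension at most one to a variety of this class, are
pseudo-geometrically hyperbolic, and the degree of every morphism from a curve of genus `g` whose
image is not in a fixed proper closed subset is at most `B max (2 g - 2, 0)`.

Proof. (1) On a variety of general type the fibres of a fibration by curves have genus at least two,
because the pluricanonical forms would otherwise be constant along the fibres. (2) Relative height
inequality: for the morphisms `f` from curves `C` to `X`, outside of a proper closed subset,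
`deg f ≤ A (max (2 g (C) - 2, 0) + ∑ deg (f l))`, where `f l : C → Y l` is the composition. Otherwise
there is in an ultraproduct of the function fields `k(C)` a derivation `D` whose constants contain
the function field of `Z`, and a point of the generic fibre `F` of genus at least two which is not
defined over the field of the constants and whose coordinates have poles which are bounded in terms
of the canonical degrees; `D` gives a horizontal vector field on the curve `F`, with the Wronskians
of the pluricanonical systems one finds a point of `F` which is not moved, and the auxiliary
polynomials of Siegel's lemma give a contradiction. (3) The pointed maps to `Y l` with a given value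
are finite in number, so by (2) the degrees of the pointed maps to `X` are bounded. If there are
infinitely many of them then by bend and break there is a rational curve in `X` through the given
point; the compositions with `X ⇢ Y l` are constant because `Y l` is pseudo-geometrically hyperbolic,
which contradicts (2). (4) If the genus of the fibres is at most one then there are rational or
elliptic curves through the general points, with infinitely many endomorphisms which fix a point.

`PseudoGeomHyp` : `Pool/Graph/R_seed8/W602/RG/TB.lean`; `PseudoBounded` :
`Pool/Graph/R_seed8/R882/HP.lean`; `CurveBound` : `Pool/Graph/R_seed8/Y216/Point.lean`;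
`GeneralType` : `Pool/Graph/R_seed8/W602/GT/Defs.lean`; `HypFibres` : `Pool/Agent/H916/RatRel.lean`;
`FibreField` : `Pool/Agent/H916/Fib.lean`; `Iterated` : `Pool/Agent/H916/Tow.lean`.
-/

set_option autoImplicit false
set_option linter.overlappingInstances false

open FF Pool.Agent.H916
open Pool.Agent.W602.GT (coords GeneralType)
open Pool.Agent.W602.RG (PseudoGeomHyp)
open Pool.Agent.Y216 (CurveBound)
open Pool.Agent.R882.HY (PseudoBounded)

namespace Pool.Agent.Results.MP_5b1cbc_ag.CurveFibrations

/-- **Lang's conjecture for fibrations by curves.** Let `X` be a projective variety with the function
field `K` and the generic point `x`.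

(I) Let `X ⇢ Y l` be dominant rational maps to projective varieties with the generic points `y l`,
such that `X` has dimension at most one over its image `Z` in the product of the `Y l`. If all `Y l`
are pseudo-geometrically hyperbolic, or bounded, or have linearly bounded curves, then `X` has the
same property if it is of general type; and `X` has this property if and only if the fibres of
`X ⇢ Z` have dimension zero or are curves of genus at least two. If the function fields of all `Y l`
are in the class `Iterated` of iterated fibrations, and `X` is of general type, then `K` is in
this class.

(II) If `K` is in the class `Iterated` then `X` is pseudo-geometrically hyperbolic, and the degrees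
of the curves are bounded linearly in the genus, outside of a proper closed subset. -/
theorem result {k : Type} [Field k] [IsAlgClosed k] [CharZero k] {K : Type} [Field K] [Algebra k K]
    {M : ℕ} {x : Fin (M + 1) → K} (hx : x ≠ 0) (hgen : coords k x = ⊤) :
    (∀ (r : ℕ) (N : Fin r → ℕ) (y : ∀ l : Fin r, Fin (N l + 1) → K), (∀ l, y l ≠ 0) →
      Algebra.trdeg k K ≤ Algebra.trdeg k ↥(⨆ l, coords k (y l)) + 1 →
      ((∀ l, PseudoGeomHyp k (y l)) →
        ((∃ w, GeneralType k K w) → PseudoGeomHyp k x) ∧
        (PseudoGeomHyp k x ↔ HypFibres (⨆ l, coords k (y l)))) ∧
      ((∀ l, PseudoBounded k (y l)) →
        ((∃ w, GeneralType k K w) → PseudoBounded k x) ∧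
        (PseudoBounded k x ↔ HypFibres (⨆ l, coords k (y l)))) ∧
      ((∀ l, CurveBound k (y l)) →
        ((∃ w, GeneralType k K w) → CurveBound k x) ∧
        (CurveBound k x ↔ HypFibres (⨆ l, coords k (y l)))) ∧
      ((∀ l, Iterated k (coords k (y l))) → (∃ w, GeneralType k K w) → Iterated k K)) ∧
    (Iterated k K → PseudoGeomHyp k x ∧ PseudoBounded k x ∧ CurveBound k x) := by
  have hess := ess_coords hgen
  obtain ⟨w, hw⟩ := Cardinal.lt_aleph0.1 (trdeg_lt_aleph0 k K)
  refine ⟨fun r N y hy htr => ?_, fun h => ?_⟩
  · have hgt : (∃ w, GeneralType k K w) → HypFibres (⨆ l, coords k (y l)) := fun ⟨w, h⟩ =>
      hypFibres_of_gt hess h htr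
    have hlow := hypFibres_of_low hess hx hgen hw htr
    refine ⟨fun h => ?_, fun h => ?_, fun h => ?_, fun h hg => ?_⟩
    · have h1 : HypFibres (⨆ l, coords k (y l)) → PseudoGeomHyp k x := fun hf =>
        pgh_multi hx hgen hy hf h
      exact ⟨fun hg => h1 (hgt hg),
        fun h2 => hlow (Or.inl (Pool.Agent.K4H62.EL.geom1_of h2)), h1⟩
    · have h1 : HypFibres (⨆ l, coords k (y l)) → PseudoBounded k x := fun hf =>
        pseudoBounded_multi hx hgen hy hf h
      exact ⟨fun hg => h1 (hgt hg),
        fun h2 => hlow (Or.inr (Pool.Agent.K4H62.EL.bounded1_of h2)), h1⟩
    · have h1 : HypFibres (⨆ l, coords k (y l)) → CurveBound k x := fun hf =>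
        curveBound_multi hx hgen hy hf h
      exact ⟨fun hg => h1 (hgt hg),
        fun h2 => hlow (Or.inr (Pool.Agent.K4H62.EL.bounded1_of (bounded_of_curveBound h2))), h1⟩
    · refine Iterated.step hess (fun l => (coords k (y l)).val) h ?_
      have h1 : (⨆ l, ((coords k (y l)).val).fieldRange) = ⨆ l, coords k (y l) := by
        congr 1
        funext l
        exact IntermediateField.fieldRange_val _
      rw [h1]
      exact hgt hg
  · have h1 := h.curveBound M x hx hgen
    exact ⟨Pool.Agent.Y216.pointed_of_bound h1, bounded_of_curveBound h1, h1⟩

end Pool.Agent.Results.MP_5b1cbc_ag.CurveFibrations
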