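import Pool.Agent.H918.G.Tower

/-!
# Pointed maps from curves to surfaces of general type over elliptic curves

Let `X` be a projective surface of general type over `ℂ` with a surjective holomorphic map
`α : X → E` to an elliptic curve. We prove that `X` is pseudo-geometrically hyperbolic, as conjectured
by Lang: outside of a proper closed subset `Z`, for every pointed curve `(C, c)` and every point `x` of
`X` there are only finitely many morphisms `f : C → X` with `f (c) = x`. (For the map `C → E` alone
there may be infinitely many, and the degrees are not bounded.) By the theorem on fibrations by curves
over pseudo-geometrically hyperbolic varieties (`CurveFibrations` on this page) the same follows for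
all towers of fibrations by curves of genus at least two over such surfaces (`Tower`).

Proof. Let `x` be outside of the fibres over `B` and outside of the finitely many elliptic curves in
`X` over `E`. (1) The estimate of holomorphic discs of the theorem `FibredSpecialSets`
(`MP_160ed4_ag`) shows that there is a neighbourhood of the centre in which the derivatives of
`α ∘ f` are bounded, uniformly for all holomorphic discs `f` through `x`. Thus the holomorphic
differential forms `(α ∘ f)^* dz`, for the pointed maps `f`, are bounded at `c`, so they are in a
bounded subset of the finite-dimensional space of holomorphic differential forms on `C`. (2) Among
infinitely many such `f` there are two for which these forms are close, and `α ∘ f` and `α ∘ f'` are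
equal at `c`, so the difference of `α ∘ f` and `α ∘ f'` is the class of a small function; by
Liouville's theorem it is zero. Therefore the set of the maps `α ∘ f` is finite. (3) By the height
inequality of `CurveFibrations` the degrees of the `f` are bounded. If there were infinitely many `f`
then, by bend and break, there would be a rational curve in `X` through `x`, but the rational curves
are in a proper closed subset (`FibredSpecialSets`). In Lean, (2) uses a plane model of `C` for which
`c` is the only point over `z = ∞`, and the estimates of the differential forms along segments and
rays in the `z`-plane.

`PseudoGeomHyp` : `Pool/Graph/R_seed8/W602/RG/TB.lean`; `OverElliptic`, `Tower` :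
`Pool/Agent/H918/G/Tower.lean`; `WForms` : `Pool/Agent/H918/G/Geo.lean`; `HasReduction`,
`ProjVariety` : `Pool/Agent/H918/E/Defs.lean`; `HypFibres` : `Pool/Agent/H916/RatRel.lean`;
`GeneralType` : `Pool/Graph/R_seed8/W602/GT/Defs.lean`.
-/

set_option autoImplicit false

open Pool.Agent.H918.PF
open Pool.Agent.W602.GT (coords)
open Pool.Agent.W602.RG (PseudoGeomHyp)

/-- **Lang's conjecture for surfaces of general type over elliptic curves.** Let `K` be the function
field of a projective surface of general type over `ℂ` with a map to an elliptic curve, with a
semistable reduction (`OverElliptic`; by the theorems of Deligne and Mumford, Arakelov and Chow all
smooth projective surfaces of general type with a holomorphic map with connected fibres to an elliptic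
curve are of this kind), or more generally let `K` be in the class `Tower` of the function fields
which are obtained from these by iterated fibrations by curves of genus at least two. Then every
projective variety with the function field `K` and a generic point `x` is pseudo-geometrically
hyperbolic. -/
theorem Pool.Agent.Results.MP_5b1cbc_ag.FibredPointedMaps.result {K : Type} [Field K] [Algebra ℂ K]
    (hK : Tower K) {M : ℕ} {x : Fin (M + 1) → K} (hx : x ≠ 0) (hgen : coords ℂ x = ⊤) :
    PseudoGeomHyp ℂ x :=
  hK.pgh M x hx hgen
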