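import Mathlib
import Pool.Agent.H917.G.W4

/-!
MP_5b1cbc_ag, Q1: general type and pseudo-geometric hyperbolicity, for projective varieties such that
some symmetric power of the cotangent bundle is generated by global sections, and for all their
closed subvarieties.
-/

set_option autoImplicit false

namespace Pool.Agent.Results.MP_5b1cbc_ag.GenPowersGeometric

open MvPolynomial FF Pool.Agent.H917
open Pool.Agent.W602.GT (GeneralType)

/-- Let `X` be the projective variety with the homogeneous ideal `p`, such that the `m`-th symmetric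
power of the cotangent sheaf of `X` is generated by global sections, for some `m ≥ 1`. Let `V` be an
irreducible closed subvariety of `X` (such as `X` itself), with the prime ideal `q`, the function
field `K`, the dimension `w` and the generic point `y`. The following are equivalent: `V` is of
general type; `V` is pseudo-geometrically hyperbolic; the closure `Sp_alg` of the union of the
positive-dimensional closed subvarieties of `V` which are not of general type is not equal to `V`, and
for every pointed curve `(C, c)` and every point `x` of `V` outside of `Sp_alg` there are only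
finitely many morphisms from `C` to `V` which map `c` to `x`; outside of a proper closed subset of
`V` the degrees of the curves in `V` are bounded linearly in their genus. -/
theorem result {n : ℕ} (p : Ideal (MvPolynomial (Fin (n + 1)) ℂ)) {m : ℕ} (hm : 1 ≤ m)
    (hg : Generated p m) (q : Ideal (MvPolynomial (Fin (n + 1)) ℂ)) (hqp : q.IsPrime)
    (hq : ∀ H ∈ q, ∀ d, homogeneousComponent d H ∈ q) (hpq : p ≤ q)
    {K : Type} [Field K] [Algebra ℂ K] {w : ℕ} {y : Fin (n + 1) → K} (hy : SubVar q K w y)
    (hyq : ∀ H : MvPolynomial (Fin (n + 1)) ℂ, (∃ d, H.IsHomogeneous d) → aeval y H = 0 →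
      H ∈ q) :
    List.TFAE [GeneralType ℂ K w,
      ∃ G : MvPolynomial (Fin (n + 1)) ℂ, (∃ d, G.IsHomogeneous d) ∧ G ∉ q ∧ PointedFin q G,
      SpAlg q ≠ Pts q ∧ ∀ (F : Type) [Field F] [Algebra ℂ F] [IsFF ℂ F] (c : Place ℂ F),
        ∀ x ∈ Pts q, x ∉ SpAlg q → (PMaps q c x).Finite,
      ∃ G : MvPolynomial (Fin (n + 1)) ℂ, (∃ d, G.IsHomogeneous d) ∧ G ∉ q ∧ LinBound q G] := by
  obtain ⟨N, s, hs⟩ := hg
  have hs' : Gens p m s := ⟨hs⟩
  have h1 := tfae_pseudo hqp hq (hs'.res hpq) hm hy hyq
  have h2 := tfae_gt hqp hq (hs'.res hpq) hm hy hyq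
  tfae_have 1 ↔ 2 := h1.out 0 5
  tfae_have 1 ↔ 4 := h1.out 0 3
  tfae_have 1 ↔ 3 := by
    constructor
    · intro h
      exact ⟨(h2.out 0 1).1 h, fun F _ _ _ c x hx hxS =>
        pointed_finite hq (hs'.res hpq) hm c hxS q le_rfl hq hx⟩
    · intro h
      exact (h2.out 0 1).2 h.1
  tfae_finish

end Pool.Agent.Results.MP_5b1cbc_ag.GenPowersGeometric
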