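import Pool.Agent.H910.Cf.Pst

/-!
# General type and pseudo-geometric hyperbolicity for varieties over the space of the binary forms

Let `k` be an algebraically closed field of characteristic zero and `X` a projective variety over
`k`, of arbitrary dimension and with arbitrary singularities, with the function field `K` and the
generic point `x` (homogeneous coordinates in `K`; `coords k x = ⊤` says that their ratios generate
`K`). A closed subvariety of `X` is given by a point `f` of `X` (`OnVar k x f`) with coordinates in
its function field `E`.

`P^(n + 1)` is the space of the binary forms `y` of degree `n + 1`. A rational map `y` from `X` to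
this space, with image not contained in the discriminant hypersurface, is *ramified* (`RamP`) if
there are distinct numbers `a i` and weights `μ i ≤ M`, `c i` and `cD` with
`(n + 1) (∑ c i + 2 n cD) + 2 M < ∑ μ i`, such that at all places of the points of `X` (with
coordinates in a field extension of `k`, outside of a proper closed subset) the orders of contact
`s i` of the image with the hyperplanes of the forms which vanish at `(1 : a i)` and `t` with the
discriminant hypersurface satisfy one of the following conditions: `t = 0` and each `s i` is zero or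
at least `M / (M - μ i)`; or `∑ c i s i + cD t ≥ M`.

**Theorem.** (I) If there is a generically finite ramified map from `X` to a space of binary forms
then there is a proper closed subset `G = 0` of `X` such that `X`, and every closed subvariety of
positive dimension of `X` which is not contained in `G = 0`, is both of general type and
pseudo-geometrically hyperbolic, with linear bounds for the degrees of the curves.

(II) Let `y l` be finitely many dominant rational maps from `X` to projective varieties `Y l` (with
the function fields `coords k (y l)`), let `z l` be finitely many ramified maps, and let `Z` be the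
image of `X` in the product. Assume `dim X ≤ dim Z + 1`. If all `Y l` are pseudo-geometrically
hyperbolic and `X` is of general type, then `X` is pseudo-geometrically hyperbolic; and `X` is
pseudo-geometrically hyperbolic if and only if `dim X = dim Z` or the geometric generic fibre of
`X ⇢ Z` is a curve of genus at least two. The same is true for the boundedness of the degrees of the
maps from each curve (`PseudoBounded`) and for bounds which are linear in the genus (`CurveBound`).
For instance (no `Y l`) every variety of general type with a ramified map to a space of binary forms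
whose general fibres are curves is pseudo-geometrically hyperbolic.

(III) A numerical criterion for ramified maps: products of powers of the values at the points
`(1 : a i)` and of the discriminant of `y` are powers in `K` up to constants, and there are weights
for which all possible orders of contact satisfy the condition.

(IV) Let `a i`, `i ≤ r`, be distinct numbers, `1 ≤ n`, `n + 1 ≤ r` and `n + r + 2 < m (r - 1)`, let
`Y(x) = (Y 0 (x), ..., Y (n + 1) (x))` be forms of degree `m` in `x 0, ..., x r`, and let `W` be the
projective variety with the equations `Y(x) (1 : a i) = x i ^ m` and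
`disc Y(x) = x (r + 1) ^ (2 n m)`. All closed subvarieties of positive dimension of `W`, not contained
in a coordinate hyperplane, are of general type and pseudo-geometrically hyperbolic, and
`(m (r - 1) - (n + r + 1)) deg f ≤ (n + 1) max (2 g - 2, 0)` for all maps `f` from curves of genus
`g` to `W` whose image is not contained in a coordinate hyperplane. For `r = n + 1` there is for each
`m` a `Y` with `Y(x) (1 : a i) = x i ^ m`, and `W` is a hypersurface of degree `2 n m` in
`P^(n + 2)`; the condition is `2 n + 3 < n m`.

`PseudoGeomHyp` : `Pool/Graph/R_seed8/W602/RG/TB.lean`; `PseudoBounded` :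
`Pool/Graph/R_seed8/R882/HP.lean`; `CurveBound`, `OnVar` : `Pool/Graph/R_seed8/Y216/Point.lean`;
`GeneralType` : `Pool/Graph/R_seed8/W602/GT/Defs.lean`; `HypFibres` : `Pool/Agent/H916/RatRel.lean`;
`hyp`, `dsc` : `Pool/Agent/H910/Vf/Defs.lean`; `Ram`, `Gen` : `Pool/Agent/H910/Cf/Defs.lean`;
`RamP` : `Pool/Agent/H910/Cf/Prj.lean`; `Root`, `Wts` : `Pool/Agent/H910/Cf/Crit.lean`; `Covering` :
`Pool/Agent/H910/Cf/Stm.lean`; `OnCyclic` : `Pool/Agent/H910/Cf/Pcv.lean`.
-/

set_option autoImplicit false
set_option linter.overlappingInstances false

open FF Pool.Agent.H916 Pool.Agent.H910.Cf MvPolynomial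
open Pool.Agent.W602.GT (coords IsForm GeneralType val)
open Pool.Agent.W602.RG (PseudoGeomHyp)
open Pool.Agent.Y216 (OnVar CurveBound)
open Pool.Agent.R882.HY (PseudoBounded)
open Pool.Agent.W603.PV (pht)
open Pool.Agent.W603.LV (canDeg)
open Pool.Agent.H910.Vf (hyp dsc)

namespace Pool.Agent.Results.MP_5b1cbc_ag.MapsToBinaryForms

/-- **General type and pseudo-geometric hyperbolicity for varieties with ramified maps to the space
of the binary forms.** See the explanation at the beginning of the file. -/
theorem result {k K : Type} [Field k] [IsAlgClosed k] [CharZero k] [Field K] [Algebra k K] {M : ℕ}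
    {x : Fin (M + 1) → K} (hx : x ≠ 0) (hgen : coords k x = ⊤) :
    (∀ (n : ℕ) (y : Fin (n + 2) → K), RamP k x y → Algebra.IsAlgebraic (coords k y) K →
      ∃ G : MvPolynomial (Fin (M + 1)) k, IsForm G ∧ val x G ≠ 0 ∧
        ∀ (E : Type) [Field E] [Algebra k E] (f : Fin (M + 1) → E), OnVar k x f →
          coords k f = ⊤ → val f G ≠ 0 → ∀ t : ℕ, 1 ≤ t → Algebra.trdeg k E = t →
            GeneralType k E t ∧ PseudoGeomHyp k f ∧ CurveBound k f) ∧
    (∀ (r r' : ℕ) (N : Fin r → ℕ) (y : ∀ l, Fin (N l + 1) → K) (n : Fin r' → ℕ)
      (z : ∀ l, Fin (n l + 2) → K), (∀ l, y l ≠ 0) → (∀ l, RamP k x (z l)) →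
      Algebra.trdeg k K ≤
        Algebra.trdeg k ↥((⨆ l, coords k (y l)) ⊔ ⨆ l, coords k (z l)) + 1 →
      ((∀ l, PseudoGeomHyp k (y l)) →
        ((∃ w, GeneralType k K w) → PseudoGeomHyp k x) ∧
        (PseudoGeomHyp k x ↔ HypFibres ((⨆ l, coords k (y l)) ⊔ ⨆ l, coords k (z l)))) ∧
      ((∀ l, PseudoBounded k (y l)) →
        ((∃ w, GeneralType k K w) → PseudoBounded k x) ∧
        (PseudoBounded k x ↔ HypFibres ((⨆ l, coords k (y l)) ⊔ ⨆ l, coords k (z l)))) ∧
      ((∀ l, CurveBound k (y l)) →
        ((∃ w, GeneralType k K w) → CurveBound k x) ∧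
        (CurveBound k x ↔ HypFibres ((⨆ l, coords k (y l)) ⊔ ⨆ l, coords k (z l))))) ∧
    (∀ (n q r : ℕ) (y : Fin (n + 2) → K) (a : Fin q → k) (m : Fin r → ℕ) (c : Fin r → Fin q → ℕ)
      (d : Fin r → ℕ), Function.Injective a → Gen a y → (∀ l, Root a y (m l) (c l) (d l)) →
      (Wts n fun s t => ∀ l, m l ∣ ∑ i, c l i * s i + d l * t) → RamP k x y) ∧
    (∀ (n r m : ℕ) (a : Fin (r + 1) → k) (Y : Fin (n + 2) → MvPolynomial (Fin (r + 1)) k),
      Covering m a Y → 1 ≤ n → n + 1 ≤ r → n + r + 2 < m * (r - 1) →
      (∀ (E : Type) [Field E] [Algebra k E] (f : Fin (r + 2) → E) (t : ℕ), OnCyclic m a Y f →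
        coords k f = ⊤ → 1 ≤ t → Algebra.trdeg k E = t → GeneralType k E t ∧ PseudoGeomHyp k f) ∧
      ∀ (L : Type) [Field L] [Algebra k L] [IsFF k L] (f : Fin (r + 2) → L), OnCyclic m a Y f →
        ((m : ℤ) * (r - 1) - (n + r + 1)) * pht k f ≤ (n + 1) * max (canDeg k L) 0) ∧
    (∀ (n m : ℕ) (a : Fin (n + 2) → k), Function.Injective a →
      ∃ Y : Fin (n + 2) → MvPolynomial (Fin (n + 2)) k, Covering m a Y ∧
        ∀ i, aeval Y (hyp k (n + 1) 1 (a i)) = X i ^ m) := by
  refine ⟨fun n y h halg => prj_single hx hgen h halg,
    fun r r' N y n z hy hz htr => prj_mixed hx hgen r r' N y n z hy hz htr,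
    fun n q r y a m c d ha hy hroot hw => ramP_criterion hx hgen ha hy hroot hw,
    fun n r m a Y hY hn hr hm => ⟨fun E _ _ f t hf hgen ht htr => cyc_all hY hr hn hm hf hgen ht htr,
      fun L _ _ _ f hf => cyc_curve ?_ hY.1 hr hn hf⟩, fun n m a ha => exists_covering m ha⟩
  by_contra h
  have : m = 0 := by omega
  rw [this, zero_mul] at hm
  omega

end Pool.Agent.Results.MP_5b1cbc_ag.MapsToBinaryForms
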